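import Mathlib
import Pool.Agent.Lib.MP_4845bf_pr.Defs
import Pool.Agent.Lib.MP_4845bf_pr.Q2Defs
import Pool.Agent.Lib.MP_4845bf_pr.Q2Final

/-!
# A generalized Bayes predictive density dominating the best invariant one

Normal linear model `y ~ N_n(Xβ, v I)`, future observation `x ~ N_m(X̃β, v I)`, both `β` and the
variance `v > 0` unknown, `α`-divergence loss with `-1 ≤ α < 1`.  For every number `k ≥ 1` of
regressors (in particular for `k = 1, 2`), the generalized Bayes predictive densities of an explicit
two-parameter family of scale mixture of normals priors dominate the best invariant predictive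
density, with strictly smaller risk at every parameter point.
-/

namespace Pool.Agent.Results.MP_4845bf_pr.BayesDominates

open MeasureTheory MP4845

/-- For `1 ≤ k < n`, `1 ≤ m`, `X` of rank `k`, `X̃ ≠ 0` (in particular `X̃` of rank `min m k`) and
`-1 ≤ α < 1`: there are `ε ∈ (0, 1)` and `μ₀ > 0` such that, for every `μ ∈ (0, μ₀]`, the prior
`mixPrior X X̃ α ε μ` is regular (measurable, positive, with proper formal posterior and
convergent Bayes integrals) and its generalized Bayes predictive density under `D_α` is, for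
almost every `y`, equal to an everywhere positive predictive density `q` whose risk under `D_α` is
finite and strictly smaller than the (finite) risk of the best invariant one, for all `β` and all
`v > 0`. -/
theorem result {n k m : ℕ} (hk : 1 ≤ k) (hkn : k < n) (hm : 1 ≤ m)
    (X : Matrix (Fin n) (Fin k) ℝ) (hX : X.rank = k)
    (Xt : Matrix (Fin m) (Fin k) ℝ) (hXt : Xt ≠ 0)
    (α : ℝ) (hα : -1 ≤ α) (hα1 : α < 1) :
    ∃ ε μ₀ : ℝ, 0 < ε ∧ ε < 1 ∧ 0 < μ₀ ∧ ∀ μ : ℝ, 0 < μ → μ ≤ μ₀ →
      RegularPrior X Xt α (mixPrior X Xt α ε μ) ∧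
      ∃ q : (Fin n → ℝ) → (Fin m → ℝ) → ℝ, IsPredictiveDensity q ∧ (∀ y x, 0 < q y x) ∧
        (∀ᵐ y : Fin n → ℝ, ∀ x, q y x = genBayes X Xt α (mixPrior X Xt α ε μ) y x) ∧
        ∀ (β : Fin k → ℝ) (v : ℝ), 0 < v →
          FiniteRisk X Xt α q β v ∧ FiniteRisk X Xt α (bestInvariant X Xt α) β v ∧
          risk X Xt α q β v < risk X Xt α (bestInvariant X Xt α) β v :=
  main_theorem2 X Xt hk hkn hm hX hXt hα hα1

end Pool.Agent.Results.MP_4845bf_pr.BayesDominates
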