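import Mathlib
import Pool.Agent.Lib.MP_4845bf_pr.Defs
import Pool.Agent.Lib.MP_4845bf_pr.Final

/-!
# Inadmissibility of the best invariant predictive density in the normal linear model

Normal linear model `y ~ N_n(Xβ, v I)`, future observation `x ~ N_m(X̃β, v I)`, both `β` and the
variance `v > 0` unknown, `α`-divergence loss with `-1 ≤ α < 1`.  For every number `k ≥ 1` of
regressors (in particular for `k = 1, 2`), the best invariant predictive density is dominated, with
strictly smaller risk at every parameter point.
-/

namespace Pool.Agent.Results.MP_4845bf_pr.Inadmissible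

open MeasureTheory MP4845

/-- For `1 ≤ k < n`, `1 ≤ m`, `X` of rank `k`, `X̃ ≠ 0` (in particular `X̃` of rank `min m k`) and
`-1 ≤ α < 1`: the best invariant predictive density is, for almost every `y`, a positive
probability density, and there is an everywhere positive predictive density whose risk under `D_α`
is finite and strictly smaller than the (finite) risk of the best invariant one, for all `β` and
all `v > 0`. -/
theorem result {n k m : ℕ} (hk : 1 ≤ k) (hkn : k < n) (hm : 1 ≤ m)
    (X : Matrix (Fin n) (Fin k) ℝ) (hX : X.rank = k)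
    (Xt : Matrix (Fin m) (Fin k) ℝ) (hXt : Xt ≠ 0)
    (α : ℝ) (hα : -1 ≤ α) (hα1 : α < 1) :
    (∀ᵐ y : Fin n → ℝ, (∀ x, 0 < bestInvariant X Xt α y x) ∧
      ∫ x, bestInvariant X Xt α y x = 1) ∧
    ∃ q : (Fin n → ℝ) → (Fin m → ℝ) → ℝ, IsPredictiveDensity q ∧ (∀ y x, 0 < q y x) ∧
      ∀ (β : Fin k → ℝ) (v : ℝ), 0 < v →
        FiniteRisk X Xt α q β v ∧ FiniteRisk X Xt α (bestInvariant X Xt α) β v ∧
        risk X Xt α q β v < risk X Xt α (bestInvariant X Xt α) β v :=
  main_theorem X Xt hk hkn hm hX hXt hα hα1

end Pool.Agent.Results.MP_4845bf_pr.Inadmissible
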